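import Pool.Agent.S5.K3.Ff.SA1_1
import Pool.Agent.S5.K3.Ff.SA1_2
import Pool.Agent.S5.K3.Ff.SA1_3
import Pool.Agent.S5.K3.Ff.SA1_4
import Pool.Agent.S5.K3.Ff.SA1_5

/-!
# Nodes with three half twists, edges `S`, `A`: cells of the flats, group `SA2020b`: the group
-/

set_option autoImplicit false

namespace Pool.Agent.S5.K3

open Pool.Agent.S5.G3

theorem pSA2020b : fSA2020b.Ok :=
  FD.ok_of (a0 := 67531225) (a1 := 67778581) (a2 := 64800555) (a3 := 65026245)
    (a4 := 67639036) (a5 := 67769685) (a6 := 65943731) (a7 := 66120919)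
    (FD.s0 67654903
    (FD.s1 64913400
    (FD.s3 66032325
    qSA2020b_1 (FD.s2 67704360
    qSA2020b_2 qSA2020b_3)) qSA2020b_4) (FD.s1 64913400
    (FD.s3 66032325
    qSA2020b_5 (FD.s2 67704360
    qSA2020b_6 (FD.s0 67716742
    qSA2020b_7 qSA2020b_8))) qSA2020b_9))
    (by decide +kernel) (by decide +kernel)

end Pool.Agent.S5.K3
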