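import Pool.Agent.S5.K3.Ff.SA2_1
import Pool.Agent.S5.K3.Ff.SA2_2
import Pool.Agent.S5.K3.Ff.SA2_3

/-!
# Nodes with three half twists, edges `S`, `A`: cells of the flats, group `SA2020`: the group
-/

set_option autoImplicit false

namespace Pool.Agent.S5.K3

open Pool.Agent.S5.G3

theorem pSA2020 : fSA2020.Ok :=
  FD.ok_of (a0 := 67531225) (a1 := 67778581) (a2 := 64800555) (a3 := 65026245)
    (a4 := 67535422) (a5 := 67762963) (a6 := 65803542) (a7 := 66001034)
    (FD.s0 67654903
    (FD.s2 67649192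
    qSA2020_1 (FD.s1 64913400
    qSA2020_2 qSA2020_3)) (FD.s2 67649192
    qSA2020_4 (FD.s1 64913400
    (FD.s3 65902288
    qSA2020_5 qSA2020_6) qSA2020_7)))
    (by decide +kernel) (by decide +kernel)

end Pool.Agent.S5.K3
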