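import Pool.Agent.S5.K3.Ff.AA1
import Pool.Agent.S5.K3.Ff.AA2
import Pool.Agent.S5.K3.Ff.AA3
import Pool.Agent.S5.K3.Ff.SA1
import Pool.Agent.S5.K3.Ff.SA2
import Pool.Agent.S5.K3.Ff.SA3
import Pool.Agent.S5.K3.Ff.SA4
import Pool.Agent.S5.K3.Ff.SA5
import Pool.Agent.S5.K3.Ff.SA6
import Pool.Agent.S5.K3.Ff.SA7
import Pool.Agent.S5.K3.Ff.SA8
import Pool.Agent.S5.K3.Ff.SS1
import Pool.Agent.S5.K3.Ff.SS2
import Pool.Agent.S5.K3.Ff.SS3
import Pool.Agent.S5.K3.Ff.SS4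

/-!
# Nodes with three half twists: all groups of the flats
-/

set_option autoImplicit false

namespace Pool.Agent.S5.K3

/-- All groups, flats. -/
def fAll : List FD :=
  [fAA2020, fAA2021, fAA2121, fAA3020, fAA3021, fAA3030,
    fAA3120, fAA3121, fAA3130, fAA3131, fAA4020, fAA4021,
    fAA4030, fAA4031, fAA4040, fAA4041, fAA4120, fAA4121,
    fAA4130, fAA4131, fAA4140, fAA4141, fAA5020, fAA5021,
    fAA5030, fAA5031, fAA5040, fAA5041, fAA5050, fAA6020,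
    fAA6021, fAA6030, fAA6031, fAA6040, fAA6041, fAA6050,
    fAA6060, fSA2020, fSA2020b, fSA2021, fSA2030, fSA2031,
    fSA2040, fSA2041, fSA2050, fSA2060, fSA3020, fSA3020b,
    fSA3021, fSA3030, fSA3031, fSA3040, fSA3041, fSA3050,
    fSA3060, fSA3120, fSA3121, fSA3130, fSA3131, fSA3140,
    fSA3141, fSA3150, fSA3160, fSA4020, fSA4021, fSA4030,
    fSA4031, fSA4040, fSA4041, fSA4050, fSA4060, fSA4120,
    fSA4121, fSA4130, fSA4131, fSA4140, fSA4141, fSA4150,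
    fSA4160, fSA5020, fSA5021, fSA5030, fSA5031, fSA5040,
    fSA5041, fSA5050, fSA5060, fSA6020, fSA6021, fSA6030,
    fSA6031, fSA6040, fSA6041, fSA6050, fSA6060, fSS2030,
    fSS2030b, fSS2040, fSS2041, fSS2050, fSS2060, fSS3030,
    fSS3030b, fSS3040, fSS3041, fSS3050, fSS3060, fSS3120,
    fSS3130, fSS3131, fSS3140, fSS3141, fSS3150, fSS3160,
    fSS4040, fSS4041, fSS4050, fSS4060, fSS4140, fSS4141,
    fSS4150, fSS4160, fSS5050, fSS5060, fSS6060]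

theorem fAll_ok : ∀ f ∈ fAll, f.Ok := by
  unfold fAll
  simp only [List.forall_mem_cons]
  exact ⟨pAA2020, pAA2021, pAA2121, pAA3020, pAA3021, pAA3030,
    pAA3120, pAA3121, pAA3130, pAA3131, pAA4020, pAA4021,
    pAA4030, pAA4031, pAA4040, pAA4041, pAA4120, pAA4121,
    pAA4130, pAA4131, pAA4140, pAA4141, pAA5020, pAA5021,
    pAA5030, pAA5031, pAA5040, pAA5041, pAA5050, pAA6020,
    pAA6021, pAA6030, pAA6031, pAA6040, pAA6041, pAA6050,
    pAA6060, pSA2020, pSA2020b, pSA2021, pSA2030, pSA2031,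
    pSA2040, pSA2041, pSA2050, pSA2060, pSA3020, pSA3020b,
    pSA3021, pSA3030, pSA3031, pSA3040, pSA3041, pSA3050,
    pSA3060, pSA3120, pSA3121, pSA3130, pSA3131, pSA3140,
    pSA3141, pSA3150, pSA3160, pSA4020, pSA4021, pSA4030,
    pSA4031, pSA4040, pSA4041, pSA4050, pSA4060, pSA4120,
    pSA4121, pSA4130, pSA4131, pSA4140, pSA4141, pSA4150,
    pSA4160, pSA5020, pSA5021, pSA5030, pSA5031, pSA5040,
    pSA5041, pSA5050, pSA5060, pSA6020, pSA6021, pSA6030,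
    pSA6031, pSA6040, pSA6041, pSA6050, pSA6060, pSS2030,
    pSS2030b, pSS2040, pSS2041, pSS2050, pSS2060, pSS3030,
    pSS3030b, pSS3040, pSS3041, pSS3050, pSS3060, pSS3120,
    pSS3130, pSS3131, pSS3140, pSS3141, pSS3150, pSS3160,
    pSS4040, pSS4041, pSS4050, pSS4060, pSS4140, pSS4141,
    pSS4150, pSS4160, pSS5050, pSS5060, pSS6060,
    fun _ h => absurd h List.not_mem_nil⟩

end Pool.Agent.S5.K3
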