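import Pool.Agent.S5.K3.Ff.AA1_1
import Pool.Agent.S5.K3.Ff.AA1_2
import Pool.Agent.S5.K3.Ff.AA1_3

/-!
# Nodes with three half twists, edges `A`, `A`: cells of the flats, group `AA2020`: the group
-/

set_option autoImplicit false

namespace Pool.Agent.S5.K3

open Pool.Agent.S5.G3

theorem pAA2020 : fAA2020.Ok :=
  FD.ok_of (a0 := 67542380) (a1 := 67780793) (a2 := 65820388) (a3 := 66089383)
    (a4 := 67542380) (a5 := 67780793) (a6 := 65820388) (a7 := 66089383)
    (FD.s1 65954885
    qAA2020_1 (FD.s3 65954885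
    (FD.s0 67661586
    qAA2020_2 qAA2020_3) (FD.s0 67661586
    qAA2020_4 qAA2020_5)))
    (by decide +kernel) (by decide +kernel)

end Pool.Agent.S5.K3
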