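import Pool.Agent.S5.K3.FdS

/-!
# Nodes with three half twists, edges `A`, `A`: cells of the flats, part 1
-/

set_option autoImplicit false

namespace Pool.Agent.S5.K3

open Pool.Agent.S5.G3

/-- The group `AA2020`. -/
def hAA2020 : GD where
  ty := false
  tb := false
  J1 := 4
  k1 := 0
  k2 := 0
  py := pA2i
  pb := pA2i
  W := ⟨⟨67583185, 67699253⟩, ⟨66797486, 66927203⟩⟩
  L1 := [⟨⟨67542380, 67775253⟩, ⟨65820388, 66015231⟩⟩,
    ⟨⟨67660321, 67780793⟩, ⟨65965402, 66089383⟩⟩]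
  L2 := [⟨⟨67542380, 67775253⟩, ⟨65820388, 66015231⟩⟩,
    ⟨⟨67660321, 67780793⟩, ⟨65965402, 66089383⟩⟩]
  u := ⟨⟨67542380, 67780793⟩, ⟨65820388, 66089383⟩⟩
  v := ⟨⟨67542380, 67780793⟩, ⟨65820388, 66089383⟩⟩

/-- The flats of the group `AA2020`. -/
def fAA2020 : FD :=
  ⟨hAA2020, 2, false, 0⟩

end Pool.Agent.S5.K3
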