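import Pool.Agent.S5.K3.FdS

/-!
# Nodes with three half twists, edges `S`, `A`: cells of the flats, part 1
-/

set_option autoImplicit false

namespace Pool.Agent.S5.K3

open Pool.Agent.S5.G3

/-- The group `SA2020b`. -/
def hSA2020b : GD where
  ty := true
  tb := false
  J1 := 4
  k1 := 0
  k2 := 0
  py := pS2i
  pb := pA2i
  W := ⟨⟨67562981, 67699253⟩, ⟨66693704, 66823567⟩⟩
  L1 := [⟨⟨67531225, 67778581⟩, ⟨64800555, 65026245⟩⟩]
  L2 := [⟨⟨67639036, 67769685⟩, ⟨65943731, 66120919⟩⟩]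
  u := ⟨⟨67531225, 67778581⟩, ⟨64800555, 65026245⟩⟩
  v := ⟨⟨67639036, 67769685⟩, ⟨65943731, 66120919⟩⟩

/-- The flats of the group `SA2020b`. -/
def fSA2020b : FD :=
  ⟨hSA2020b, 2, false, 0⟩

end Pool.Agent.S5.K3
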